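import Pool.Agent.helper92.ISO.SpecG

/-!
# Row `iso:PRL` (MP_069684_lc): a list of sets for the second player
-/

set_option autoImplicit false

namespace Pool.Agent.ISO

/-- the list of the elements of a set with at most `m` elements -/
noncomputable def PRL_code {R m : ℕ} (K : Finset (Fin R)) (i : Fin m) : Option (Fin R) :=
  if h : (i : ℕ) < K.card then some ((K.equivFin.symm ⟨i, h⟩ : K) : Fin R) else none

theorem PRL_sub {R m : ℕ} {A B : Finset (Fin R)} (hA : A.card ≤ m)
    (h : (PRL_code A : Fin m → Option (Fin R)) = PRL_code B) : A ⊆ B := by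
  intro a ha
  have hi : ((A.equivFin ⟨a, ha⟩ : Fin A.card) : ℕ) < A.card := (A.equivFin ⟨a, ha⟩).2
  have h1 := congrFun h ⟨((A.equivFin ⟨a, ha⟩ : Fin A.card) : ℕ), lt_of_lt_of_le hi hA⟩
  unfold PRL_code at h1
  rw [dif_pos hi] at h1
  have e : (⟨((A.equivFin ⟨a, ha⟩ : Fin A.card) : ℕ), hi⟩ : Fin A.card) = A.equivFin ⟨a, ha⟩ := rfl
  rw [e, Equiv.symm_apply_apply] at h1
  by_cases hB : ((A.equivFin ⟨a, ha⟩ : Fin A.card) : ℕ) < B.card
  · rw [dif_pos hB] at h1
    have h2 := Option.some.inj h1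
    have h3 := (B.equivFin.symm ⟨((A.equivFin ⟨a, ha⟩ : Fin A.card) : ℕ), hB⟩).2
    rw [← h2] at h3
    exact h3
  · rw [dif_neg hB] at h1
    exact absurd h1 (by simp)

theorem PRL_card (R m : ℕ) :
    Fintype.card {K : Finset (Fin R) // 1 ≤ K.card ∧ K.card ≤ m} ≤ (R + 1) ^ m := by
  classical
  have h : Function.Injective (fun K : {K : Finset (Fin R) // 1 ≤ K.card ∧ K.card ≤ m} =>
      (PRL_code K.1 : Fin m → Option (Fin R))) := by
    intro K L hKL
    exact Subtype.ext (Finset.Subset.antisymm (PRL_sub K.2.2 hKL) (PRL_sub L.2.2 hKL.symm))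
  calc Fintype.card {K : Finset (Fin R) // 1 ≤ K.card ∧ K.card ≤ m}
      ≤ Fintype.card (Fin m → Option (Fin R)) := Fintype.card_le_of_injective _ h
    _ = (R + 1) ^ m := by simp

open Classical in
theorem PRL_sum {R m : ℕ} (μ : {K : Finset (Fin R) // 1 ≤ K.card ∧ K.card ≤ m} → ℝ)
    (P : Finset (Fin R) → Prop) :
    (∑ K : Finset (Fin R), if P K then (if h : 1 ≤ K.card ∧ K.card ≤ m then μ ⟨K, h⟩ else 0) else 0) =
      ∑ a : {K : Finset (Fin R) // 1 ≤ K.card ∧ K.card ≤ m}, if P a.1 then μ a else 0 := by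
  rw [← Fintype.sum_subtype_add_sum_subtype (fun K : Finset (Fin R) => 1 ≤ K.card ∧ K.card ≤ m)]
  have h2 : (∑ i : {K : Finset (Fin R) // ¬ (1 ≤ K.card ∧ K.card ≤ m)},
      if P i.1 then (if h : 1 ≤ i.1.card ∧ i.1.card ≤ m then μ ⟨i.1, h⟩ else 0) else 0) = 0 := by
    refine Finset.sum_eq_zero fun i _ => ?_
    rw [dif_neg i.2]
    split_ifs <;> rfl
  rw [h2, add_zero]
  refine Finset.sum_congr rfl fun a _ => ?_
  rw [dif_pos a.2]

theorem PRL_proof (hB : THB_stmt) (hP : PTL_stmt) : PRL_stmt := by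
  classical
  intro R m κ k lam hm hκ hl hl1
  obtain ⟨hle, -, hpos, -, -, -⟩ := hB m κ hm hκ
  by_cases hne : Nonempty {K : Finset (Fin R) // 1 ≤ K.card ∧ K.card ≤ m}
  swap
  · exact ⟨fun _ => ∅, fun K h1 h2 => absurd ⟨⟨K, h1, h2⟩⟩ hne⟩
  have key : ∀ μ : {K : Finset (Fin R) // 1 ≤ K.card ∧ K.card ≤ m} → ℝ, (∀ a, 0 ≤ μ a) → ∑ a, μ a = 1 →
      ∃ T : Finset (Fin R), theta m κ ≤ ∑ a with Hit κ T a.1, μ a := by
    intro μ h0 hs
    by_contra hcon
    push Not at hcon
    obtain ⟨T₀, -, hT₀⟩ := Finset.exists_max_image (Finset.univ : Finset (Finset (Fin R)))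
      (fun T => ∑ a with Hit κ T a.1, μ a) ⟨∅, Finset.mem_univ _⟩
    have hlt := hcon T₀
    let μ' : Finset (Fin R) → ℝ := fun K => if h : 1 ≤ K.card ∧ K.card ≤ m then μ ⟨K, h⟩ else 0
    have hst : Strat R m μ' := by
      refine ⟨fun K => ?_, fun K hK => ?_, ?_⟩
      · show 0 ≤ (if h : 1 ≤ K.card ∧ K.card ≤ m then μ ⟨K, h⟩ else 0)
        split_ifs with h
        · exact h0 _
        · exact le_refl _
      · by_contra hn
        exact hK (dif_neg hn)
      · have h1 := PRL_sum μ (fun _ => True)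
        simp only [if_true] at h1
        rw [← hs, ← h1]
    have hval : ValLe κ (∑ a with Hit κ T₀ a.1, μ a) μ' := by
      intro T
      have h1 := PRL_sum μ (fun K => Hit κ T K)
      have h2 : (∑ K with Hit κ T K, μ' K) = ∑ a with Hit κ T a.1, μ a := by
        rw [Finset.sum_filter, Finset.sum_filter]
        refine Eq.trans ?_ (h1.trans ?_)
        · exact Finset.sum_congr rfl fun K _ => by
            by_cases hh : Hit κ T K
            · rw [if_pos hh, if_pos hh]
            · rw [if_neg hh, if_neg hh]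
        · exact Finset.sum_congr rfl fun K _ => by
            by_cases hh : Hit κ T K.1
            · rw [if_pos hh, if_pos hh]
            · rw [if_neg hh, if_neg hh]
      rw [h2]
      exact hT₀ T (Finset.mem_univ _)
    exact absurd (hle _ R μ' hst hval) (not_le.2 hlt)
  obtain ⟨L, hL⟩ := hP {K : Finset (Fin R) // 1 ≤ K.card ∧ K.card ≤ m} (Finset (Fin R))
    (fun T K => Hit κ T K.1) (theta m κ) lam k hl hl1 hpos.le (fun μ h0 hs => by
      obtain ⟨T, hT⟩ := key μ h0 hs
      refine ⟨T, hT.trans (le_of_eq ?_)⟩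
      rw [Finset.sum_filter, Finset.sum_filter]
      exact Finset.sum_congr rfl fun K _ => by
        by_cases hh : Hit κ T K.1
        · rw [if_pos hh, if_pos hh]
        · rw [if_neg hh, if_neg hh])
  refine ⟨L, fun K h1 h2 => ?_⟩
  have h3 := hL ⟨K, h1, h2⟩
  have hc : (Fintype.card {K : Finset (Fin R) // 1 ≤ K.card ∧ K.card ≤ m} : ℝ) ≤ ((R : ℝ) + 1) ^ m := by
    have := PRL_card R m
    exact_mod_cast this
  have hc0 : 0 < (Fintype.card {K : Finset (Fin R) // 1 ≤ K.card ∧ K.card ≤ m} : ℝ) := by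
    have := Fintype.card_pos_iff.2 hne
    exact_mod_cast this
  have hlog : Real.log (Fintype.card {K : Finset (Fin R) // 1 ≤ K.card ∧ K.card ≤ m}) ≤ m * Real.log (R + 1) := by
    rw [← Real.log_pow]
    exact Real.log_le_log hc0 hc
  have h4 : Real.log (Fintype.card {K : Finset (Fin R) // 1 ≤ K.card ∧ K.card ≤ m}) / lam ≤
      m * Real.log (R + 1) / lam := div_le_div_of_nonneg_right hlog hl.le
  refine le_trans ?_ (h3.trans (le_of_eq ?_))
  · linarith
  · rw [Finset.card_filter, Finset.card_filter]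
    congr 1
    exact Finset.sum_congr rfl fun j _ => by
      by_cases hh : Hit κ (L j) K
      · rw [if_pos hh, if_pos hh]
      · rw [if_neg hh, if_neg hh]

end Pool.Agent.ISO
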